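import Pool.Agent.R128.FracDim

set_option autoImplicit false

/-!
# The fractional dimension of `P(k, n)` stays away from `2 ^ (k + 1)` (MP_4df60b_co)

* `ConvGeom k n` is the convex geometry `P(k, n)`: the sets `A ⊆ {1, …, n}` such that
  `|A| = k + i - 1` implies `{1, …, i - 1} ⊆ A`, ordered by inclusion.
* `fdim P` is the fractional dimension of the finite poset `P`: the least total weight of a
  fractional realizer (and `1` for a chain).

Ordering the members `X` by the largest element of `X ∩ A`, where `A` is a random set containing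
each point independently with probability `1 / (k + 1)`, gives a fractional realizer of total weight
`(k + 1) ^ (k + 1) / k ^ k`, which is less than `2 ^ (k + 1)` for every `k ≥ 2`. So the claimed limit
is wrong for every `k ≥ 2`.
-/

namespace Pool.Agent.Results.MP_4df60b_co.LimitDisproved

open Pool.Agent.R128.FracDim

lemma bound_lt (k : ℕ) (hk : 2 ≤ k) : ((k : ℝ) + 1) ^ (k + 1) / (k : ℝ) ^ k < 2 ^ (k + 1) := by
  have hk0 : (0 : ℝ) < k := by exact_mod_cast (by omega : 0 < k)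
  rw [div_lt_iff₀ (pow_pos hk0 k)]
  induction k, hk using Nat.le_induction with
  | base => norm_num
  | succ k hk ih =>
    have hk1 : (0 : ℝ) < k := by exact_mod_cast (by omega : 0 < k)
    have hk2 : (2 : ℝ) ≤ k := by exact_mod_cast hk
    have h := ih hk1
    push_cast
    have key : ((k : ℝ) + 1 + 1) ^ (k + 1 + 1) * (k : ℝ) ^ k ≤
        2 * (((k : ℝ) + 1) ^ (k + 1) * ((k : ℝ) + 1) ^ (k + 1)) := by
      have e1 : ((k : ℝ) + 1 + 1) ^ (k + 1 + 1) * (k : ℝ) ^ k =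
          (((k : ℝ) + 1 + 1) * k) ^ k * ((k : ℝ) + 1 + 1) ^ 2 := by
        rw [mul_pow]; ring
      have e2 : 2 * (((k : ℝ) + 1) ^ (k + 1) * ((k : ℝ) + 1) ^ (k + 1)) =
          (((k : ℝ) + 1) * ((k : ℝ) + 1)) ^ k * (2 * ((k : ℝ) + 1) ^ 2) := by
        rw [mul_pow]; ring
      rw [e1, e2]
      apply mul_le_mul
      · apply pow_le_pow_left₀ (by positivity)
        nlinarith
      · nlinarith
      · positivity
      · positivity
    have h3 : ((k : ℝ) + 1) ^ (k + 1) * ((k : ℝ) + 1) ^ (k + 1) <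
        ((k : ℝ) + 1) ^ (k + 1) * (2 ^ (k + 1) * (k : ℝ) ^ k) :=
      mul_lt_mul_of_pos_left h (by positivity)
    have h4 : ((k : ℝ) + 1 + 1) ^ (k + 1 + 1) * (k : ℝ) ^ k <
        2 ^ (k + 1 + 1) * ((k : ℝ) + 1) ^ (k + 1) * (k : ℝ) ^ k := by
      have e3 : (2 : ℝ) ^ (k + 1 + 1) * ((k : ℝ) + 1) ^ (k + 1) * (k : ℝ) ^ k =
          2 * (((k : ℝ) + 1) ^ (k + 1) * (2 ^ (k + 1) * (k : ℝ) ^ k)) := by ring
      rw [e3]
      linarith
    exact lt_of_mul_lt_mul_right h4 (by positivity)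

/-- Negative answer to Q1: it is not true that for every `k ≥ 1` and `ε > 0` one has
`fdim (P(k, n)) > 2 ^ (k + 1) - ε` for all large `n`. In fact
`fdim (P(k, n)) ≤ (k + 1) ^ (k + 1) / k ^ k < 2 ^ (k + 1)` for all `k ≥ 2` and all `n ≥ k + 2`. -/
theorem result :
    (∀ k : ℕ, 2 ≤ k → ((k : ℝ) + 1) ^ (k + 1) / (k : ℝ) ^ k < 2 ^ (k + 1) ∧
      ∀ n : ℕ, k + 2 ≤ n → fdim (ConvGeom k n) ≤ ((k : ℝ) + 1) ^ (k + 1) / (k : ℝ) ^ k) ∧
    ¬ ∀ k : ℕ, 1 ≤ k → ∀ ε : ℝ, 0 < ε → ∃ n₀ : ℕ, ∀ n : ℕ, n₀ ≤ n → k + 2 ≤ n →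
      (2 : ℝ) ^ (k + 1) - ε < fdim (ConvGeom k n) := by
  refine ⟨fun k hk => ⟨bound_lt k hk, fun n _ => fdim_le k n (by omega)⟩, ?_⟩
  intro h
  obtain ⟨n₀, hn⟩ := h 2 (by norm_num) (5 / 4) (by norm_num)
  have h1 := hn (n₀ + 4) (by omega) (by omega)
  have h2 := fdim_le 2 (n₀ + 4) (by norm_num)
  norm_num at h1 h2
  linarith

end Pool.Agent.Results.MP_4df60b_co.LimitDisproved
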